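import Pool.Agent.Lib.MP_e1fd79_gt.Interfaces

/-!
# The determinant of the metric and the volume of a box
-/

set_option autoImplicit false

open scoped ContDiff Topology
open MeasureTheory Filter

namespace Pool.Agent.Lib.MP_e1fd79_gt.H7

theorem xx_dot {m : ℕ} (x : Fin (m + 3) → ℝ) : XX x ⬝ᵥ XX x = tt x := by
  unfold dotProduct
  rw [Fin.sum_univ_succ, Fin.sum_univ_succ]
  have h : ∑ i : Fin (m + 1), XX x i.succ.succ * XX x i.succ.succ = 0 := by
    refine Finset.sum_eq_zero fun i _ => ?_
    unfold XX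
    rw [if_neg (by simp), mul_zero]
  rw [h]
  unfold XX tt
  simp only [Fin.val_zero, Fin.succ_zero_eq_one, Fin.val_one]
  norm_num
  ring

theorem ee_dot {m : ℕ} : (EE : Fin (m + 3) → ℝ) ⬝ᵥ EE = 1 := by
  unfold dotProduct
  rw [Finset.sum_eq_single (2 : Fin (m + 3))]
  · unfold EE
    simp
  · intro b _ hb
    unfold EE
    rw [if_neg, mul_zero]
    intro h
    exact hb (Fin.ext (h.trans Fin.val_two.symm))
  · simp

theorem xe_dot {m : ℕ} (x : Fin (m + 3) → ℝ) : XX x ⬝ᵥ (EE : Fin (m + 3) → ℝ) = 0 := by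
  unfold dotProduct
  refine Finset.sum_eq_zero fun i _ => ?_
  unfold XX EE
  by_cases h : i.val < 2
  · rw [if_neg (by omega : ¬ i.val = 2), mul_zero]
  · rw [if_neg h, zero_mul]

theorem det_gM (P : Prof) {m : ℕ} (x : Fin (m + 3) → ℝ) : (P.gM x).det = 1 := by
  have hN : 0 < P.N (tt x) := P.pos _ (by unfold tt; positivity)
  set A := P.mu (tt x) / P.N (tt x) with hA
  set B := P.N (tt x) - 1 with hB
  have h1 : P.gM x = (1 + Matrix.vecMulVec (A • XX x) (XX x)) *
      (1 + Matrix.vecMulVec (B • (EE : Fin (m + 3) → ℝ)) EE) := by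
    rw [add_mul, mul_add, mul_add, one_mul, one_mul, mul_one, Matrix.vecMulVec_mul_vecMulVec]
    have h2 : XX x ⬝ᵥ (B • (EE : Fin (m + 3) → ℝ)) = 0 := by
      rw [dotProduct_smul, xe_dot, smul_zero]
    rw [h2]
    ext i j
    simp only [Prof.gM, Matrix.add_apply, Matrix.one_apply, Matrix.vecMulVec_apply, Pi.smul_apply,
      smul_eq_mul, zero_smul]
    rw [← hA, ← hB]
    simp
    ring
  rw [h1, Matrix.det_mul]
  have key : ∀ u v : Fin (m + 3) → ℝ, (1 + Matrix.vecMulVec u v).det = 1 + v ⬝ᵥ u := by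
    intro u v
    rw [Matrix.vecMulVec_eq Unit, Matrix.det_one_add_replicateCol_mul_replicateRow]
  rw [key, key, dotProduct_smul, dotProduct_smul, xx_dot, ee_dot, smul_eq_mul, smul_eq_mul, hA, hB]
  have h3 : P.N (tt x) = 1 - tt x * P.mu (tt x) := rfl
  field_simp
  rw [h3]
  ring

theorem vol_holds : VolStatement := by
  intro P m M hM
  unfold RMetric.vol
  have h : (fun x => ENNReal.ofReal √((M.g x).det)) = 1 := by
    funext x
    rw [hM, det_gM]
    simp
  rw [h, withDensity_one]

theorem box_holds : BoxStatement := by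
  intro m T Y hT hY
  let a : Fin (m + 3) → ℝ := fun i => if i.val < 2 then √T else if i.val = 2 then Y else 1
  have hsub : {x : Fin (m + 3) → ℝ | tt x ≤ T ∧ |x 2| ≤ Y ∧ ∀ i, 3 ≤ i.val → |x i| ≤ 1} ⊆
      Set.Icc (-a) a := by
    rintro x ⟨h1, h2, h3⟩
    have h : ∀ i, |x i| ≤ a i := by
      intro i
      change |x i| ≤ if i.val < 2 then √T else if i.val = 2 then Y else 1
      unfold tt at h1
      have p0 := sq_nonneg (x 0)
      have p1 := sq_nonneg (x 1)
      split_ifs with hi hi'
      · refine Real.abs_le_sqrt ?_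
        have : i = 0 ∨ i = 1 := by
          have : i.val = 0 ∨ i.val = 1 := by omega
          rcases this with h | h
          · exact Or.inl (Fin.ext h)
          · exact Or.inr (Fin.ext (h.trans (by simp)))
        rcases this with rfl | rfl <;> linarith
      · have : i = 2 := Fin.ext (hi'.trans Fin.val_two.symm)
        rw [this]
        exact h2
      · exact h3 i (by omega)
    exact ⟨fun i => (abs_le.mp (h i)).1, fun i => (abs_le.mp (h i)).2⟩
  refine (measure_mono hsub).trans ?_
  rw [Real.volume_Icc_pi]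
  have hn : ∀ i, 0 ≤ a i - (-a) i := by
    intro i
    have : 0 ≤ a i := by
      change 0 ≤ if i.val < 2 then √T else if i.val = 2 then Y else 1
      split_ifs
      · exact Real.sqrt_nonneg _
      · exact hY
      · exact zero_le_one
    simp only [Pi.neg_apply]
    linarith
  rw [← ENNReal.ofReal_prod_of_nonneg fun i _ => hn i]
  refine ENNReal.ofReal_le_ofReal ?_
  rw [Fin.prod_univ_succ, Fin.prod_univ_succ, Fin.prod_univ_succ]
  have e0 : a 0 - (-a) 0 = 2 * √T := by
    simp only [Pi.neg_apply, a, Fin.val_zero]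
    norm_num
    ring
  have e1 : a (Fin.succ 0) - (-a) (Fin.succ 0) = 2 * √T := by
    simp only [Pi.neg_apply, a, Fin.succ_zero_eq_one, Fin.val_one]
    norm_num
    ring
  have e2 : a (Fin.succ (Fin.succ 0)) - (-a) (Fin.succ (Fin.succ 0)) = 2 * Y := by
    have : ((Fin.succ (Fin.succ 0) : Fin (m + 3)) : ℕ) = 2 := by simp
    simp only [Pi.neg_apply, a, this]
    norm_num
    ring
  have e3 : ∀ i : Fin m, a i.succ.succ.succ - (-a) i.succ.succ.succ = 2 := by
    intro i
    have : ((i.succ.succ.succ : Fin (m + 3)) : ℕ) = i + 3 := by simp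
    simp only [Pi.neg_apply, a, this]
    rw [if_neg (by omega), if_neg (by omega)]
    norm_num
  rw [e0, e1, e2, Finset.prod_congr rfl fun i _ => e3 i]
  rw [Finset.prod_const, Finset.card_univ, Fintype.card_fin]
  have hs := Real.mul_self_sqrt hT
  apply le_of_eq
  linear_combination (4 * (2 * Y) * 2 ^ m) * hs

end Pool.Agent.Lib.MP_e1fd79_gt.H7
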